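import Mathlib
import Pool.Agent.helper11.WH.Defs

set_option autoImplicit false

namespace Pool.Agent.helper11.WH

open Finset

/-- a nonempty finset has a minimal element for a transitive irreflexive relation, below a given
element -/
theorem h76_exists_min {T : Type*} [DecidableEq T] (r : T → T → Prop) (irr : ∀ a, ¬ r a a)
    (tr : ∀ a b c, r a b → r b c → r a c) (A : Finset T) :
    ∀ c ∈ A, ∃ d ∈ A, (d = c ∨ r d c) ∧ ∀ b ∈ A, ¬ r b d := by
  classical
  induction A using Finset.strongInduction with
  | H A ih =>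
    intro c hc
    by_cases h : ∀ b ∈ A, ¬ r b c
    · exact ⟨c, hc, Or.inl rfl, h⟩
    · push Not at h
      obtain ⟨b, hb, hbc⟩ := h
      have hsub : A.filter (fun a => r a c) ⊂ A := by
        rw [Finset.filter_ssubset]
        exact ⟨c, hc, irr c⟩
      obtain ⟨d, hd, hd1, hd2⟩ := ih _ hsub b (Finset.mem_filter.2 ⟨hb, hbc⟩)
      obtain ⟨hdA, hdc⟩ := Finset.mem_filter.1 hd
      refine ⟨d, hdA, Or.inr hdc, fun e he hed => ?_⟩
      exact hd2 e (Finset.mem_filter.2 ⟨he, tr _ _ _ hed hdc⟩) hed

theorem exists_antichain {T : Type*} [DecidableEq T] (r : T → T → Prop) (irr : ∀ a, ¬ r a a)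
    (tr : ∀ a b c, r a b → r b c → r a c) (A : Finset T) (k : ℕ) (w : T → ℕ)
    (h : ∀ C ⊆ A, (∀ a ∈ C, ∀ b ∈ C, a ≠ b → r a b ∨ r b a) → ∑ a ∈ C, w a ≤ k) :
    ∃ D ⊆ A, (∀ a ∈ D, ∀ b ∈ D, ¬ r a b) ∧ ∑ a ∈ A, w a ≤ k * D.card := by
  classical
  induction k generalizing w with
  | zero =>
    refine ⟨∅, Finset.empty_subset _, by simp, ?_⟩
    have : ∑ a ∈ A, w a = 0 := by
      apply Finset.sum_eq_zero
      intro a ha
      have := h {a} (Finset.singleton_subset_iff.2 ha) (by
        intro x hx y hy hxy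
        rw [Finset.mem_singleton] at hx hy
        exact absurd (hx.trans hy.symm) hxy)
      simpa using this
    simp [this]
  | succ k ih =>
    obtain ⟨T0, hT0⟩ : ∃ T0, T0 = A.filter (fun a => 0 < w a) := ⟨_, rfl⟩
    obtain ⟨D1, hD1⟩ : ∃ D1, D1 = T0.filter (fun a => ∀ b ∈ T0, ¬ r b a) := ⟨_, rfl⟩
    have hT0A : T0 ⊆ A := by rw [hT0]; exact Finset.filter_subset _ _
    have hD1T : D1 ⊆ T0 := by rw [hD1]; exact Finset.filter_subset _ _
    have hpos : ∀ a ∈ T0, 0 < w a := by
      intro a ha
      rw [hT0] at ha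
      exact (Finset.mem_filter.1 ha).2
    obtain ⟨w', hw'⟩ : ∃ w' : T → ℕ, w' = fun a => w a - (if a ∈ D1 then 1 else 0) := ⟨_, rfl⟩
    have hw'le : ∀ a, w' a ≤ w a := by
      intro a; rw [hw']; exact Nat.sub_le _ _
    have hsumA : ∑ a ∈ A, w a = D1.card + ∑ a ∈ A, w' a := by
      have h1 : ∀ a ∈ A, w a = (if a ∈ D1 then 1 else 0) + w' a := by
        intro a _
        rw [hw']
        by_cases ha : a ∈ D1
        · have := hpos a (hD1T ha)
          simp only [ha, if_true]
          omega
        · simp [ha]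
      rw [Finset.sum_congr rfl h1, Finset.sum_add_distrib]
      congr 1
      rw [← Finset.sum_filter, Finset.filter_mem_eq_inter, Finset.inter_eq_right.2 (hD1T.trans hT0A)]
      simp
    have hanti : ∀ a ∈ D1, ∀ b ∈ D1, ¬ r a b := by
      intro a ha b hb hab
      rw [hD1] at hb
      exact (Finset.mem_filter.1 hb).2 a (hD1T ha) hab
    have key : ∀ C ⊆ A, (∀ a ∈ C, ∀ b ∈ C, a ≠ b → r a b ∨ r b a) → ∑ a ∈ C, w' a ≤ k := by
      intro C hC hch
      obtain ⟨C', hC'⟩ : ∃ C', C' = C.filter (fun a => 0 < w' a) := ⟨_, rfl⟩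
      have hC'C : C' ⊆ C := by rw [hC']; exact Finset.filter_subset _ _
      have hC'T : C' ⊆ T0 := by
        intro a ha
        rw [hT0, Finset.mem_filter]
        refine ⟨hC (hC'C ha), ?_⟩
        rw [hC', Finset.mem_filter] at ha
        exact lt_of_lt_of_le ha.2 (hw'le a)
      have hsum : ∑ a ∈ C, w' a = ∑ a ∈ C', w' a := by
        rw [hC']
        symm
        apply Finset.sum_filter_of_ne
        intro a _ ha
        exact Nat.pos_of_ne_zero ha
      rw [hsum]
      rcases C'.eq_empty_or_nonempty with hemp | ⟨c, hc⟩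
      · rw [hemp]; simp
      obtain ⟨c0, hc0, -, hmin⟩ := h76_exists_min r irr tr C' c hc
      have hch' : ∀ a ∈ C', ∀ b ∈ C', a ≠ b → r a b ∨ r b a :=
        fun a ha b hb => hch a (hC'C ha) b (hC'C hb)
      by_cases hcD : c0 ∈ D1
      · have h1 : ∑ a ∈ C', w a ≤ k + 1 := h C' (hC'T.trans hT0A) hch'
        have h2 : ∑ a ∈ C', w' a < ∑ a ∈ C', w a := by
          apply Finset.sum_lt_sum (fun a _ => hw'le a)
          refine ⟨c0, hc0, ?_⟩
          have := hpos c0 (hC'T hc0)
          rw [hw']
          simp only [hcD, if_true]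
          omega
        omega
      · obtain ⟨d, hd, hd1, hd2⟩ := h76_exists_min r irr tr T0 c0 (hC'T hc0)
        have hdD : d ∈ D1 := by rw [hD1, Finset.mem_filter]; exact ⟨hd, hd2⟩
        have hdc : r d c0 := by
          rcases hd1 with h1 | h1
          · exact absurd (h1 ▸ hdD) hcD
          · exact h1
        have hdall : ∀ a ∈ C', r d a := by
          intro a ha
          by_cases hac : a = c0
          · rw [hac]; exact hdc
          · rcases hch' a ha c0 hc0 hac with h1 | h1
            · exact absurd h1 (hmin a ha)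
            · exact tr _ _ _ hdc h1
        have hdn : d ∉ C' := fun hdm => irr d (hdall d hdm)
        have h1 : ∑ a ∈ insert d C', w a ≤ k + 1 := by
          apply h
          · intro a ha
            rcases Finset.mem_insert.1 ha with rfl | ha
            · exact hT0A hd
            · exact hT0A (hC'T ha)
          · intro a ha b hb hab
            rcases Finset.mem_insert.1 ha with h1 | h1
            · rcases Finset.mem_insert.1 hb with h2 | h2
              · exact absurd (h1.trans h2.symm) hab
              · exact Or.inl (h1 ▸ hdall b h2)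
            · rcases Finset.mem_insert.1 hb with h2 | h2
              · exact Or.inr (h2 ▸ hdall a h1)
              · exact hch' a h1 b h2 hab
        rw [Finset.sum_insert hdn] at h1
        have h2 : ∑ a ∈ C', w' a ≤ ∑ a ∈ C', w a := Finset.sum_le_sum (fun a _ => hw'le a)
        have := hpos d hd
        omega
    obtain ⟨D, hDA, hD, hDk⟩ := ih w' key
    by_cases hcard : D1.card ≤ D.card
    · refine ⟨D, hDA, hD, ?_⟩
      rw [hsumA]
      calc D1.card + ∑ a ∈ A, w' a ≤ D.card + k * D.card := by omega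
        _ = (k + 1) * D.card := by ring
    · refine ⟨D1, hD1T.trans hT0A, hanti, ?_⟩
      rw [hsumA]
      have : k * D.card ≤ k * D1.card := Nat.mul_le_mul_left _ (by omega)
      calc D1.card + ∑ a ∈ A, w' a ≤ D1.card + k * D1.card := by omega
        _ = (k + 1) * D1.card := by ring

end Pool.Agent.helper11.WH
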