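import Mathlib
import Pool.Agent.helper11.WH.Defs

set_option autoImplicit false

namespace Pool.Agent.helper11.WH

open Finset

section SW

variable {ι : Type*} [Fintype ι] [DecidableEq ι] {x y : ι → ℤ} {I : Finset ι} {Q : Finset (ι × ι)}

theorem out_unique (hQ : Sys x y I Q) {u v w : ι} (h1 : (u, v) ∈ Q) (h2 : (u, w) ∈ Q) : v = w := by
  obtain ⟨a1, a2, -⟩ := hQ.cov _ h1
  obtain ⟨b1, b2, -⟩ := hQ.cov _ h2
  have := hQ.dis _ h1 _ h2 ⟨b1, b2, a1, a2⟩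
  exact (Prod.mk.inj this).2

theorem in_unique (hQ : Sys x y I Q) {u v w : ι} (h1 : (u, w) ∈ Q) (h2 : (v, w) ∈ Q) : u = v := by
  obtain ⟨a1, a2, -⟩ := hQ.cov _ h1
  obtain ⟨b1, b2, -⟩ := hQ.cov _ h2
  have := hQ.dis _ h1 _ h2 ⟨a1, a2, b1, b2⟩
  exact (Prod.mk.inj this).1

/-- two edges alive at a common time have disjoint `y` intervals -/
theorem alive (hQ : Sys x y I Q) {a b c d : ι} (h1 : (a, b) ∈ Q) (h2 : (c, d) ∈ Q)
    (hne : (a, b) ≠ (c, d)) (h3 : x a < x d) (h4 : x c < x b) : y b ≤ y c ∨ y d ≤ y a := by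
  by_contra hcon
  push Not at hcon
  exact hne (hQ.dis _ h1 _ h2 ⟨h3, hcon.2, h4, hcon.1⟩)

/-- the predecessor of `r` is the highest head below `r` -/
theorem top (hQ : Sys x y I Q) {u r a b : ι} (h1 : (u, r) ∈ Q) (h2 : (a, b) ∈ Q)
    (h3 : x a < x r) (h4 : x r ≤ x b) (h5 : y a < y r) : y a ≤ y u := by
  obtain ⟨a1, a2, -⟩ := hQ.cov _ h1
  obtain ⟨b1, b2, -⟩ := hQ.cov _ h2
  simp only at a1 a2 b1 b2
  by_cases hne : (a, b) = (u, r)
  · rw [(Prod.mk.inj hne).1]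
  · rcases alive hQ h2 h1 hne h3 (lt_of_lt_of_le a1 h4) with h | h <;> omega

end SW

end Pool.Agent.helper11.WH
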