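import Mathlib
import Pool.Agent.helper11.WH.Defs
import Pool.Agent.helper76.WH.SW

set_option autoImplicit false

namespace Pool.Agent.helper11.WH

open Finset

theorem card_St {ι : Type*} [Fintype ι] [DecidableEq ι] {x y : ι → ℤ} {V : Finset ι}
    {Q : Finset (ι × ι)} (hQ : Sys x y Vᶜ Q) : (St V Q).card + Q.card = (Vᶜ : Finset ι).card := by
  classical
  have h1 : (Q.image Prod.snd).card = Q.card := by
    apply Finset.card_image_of_injOn
    rintro ⟨a, b⟩ ha ⟨c, d⟩ hc h
    simp only at h
    subst h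
    have := in_unique hQ ha hc
    rw [this]
  have h2 : Disjoint (St V Q) (Q.image Prod.snd) := by
    rw [Finset.disjoint_left]
    intro s hs hs'
    rw [mem_St] at hs
    obtain ⟨⟨a, b⟩, he, rfl⟩ := Finset.mem_image.1 hs'
    exact hs.2 a he
  have h3 : St V Q ∪ Q.image Prod.snd = (Vᶜ : Finset ι) := by
    ext s
    rw [Finset.mem_union, mem_St, Finset.mem_image, Finset.mem_compl]
    constructor
    · rintro (h | ⟨e, he, rfl⟩)
      · exact h.1
      · exact Finset.mem_compl.1 (hQ.memR e he)
    · intro hs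
      by_cases h : ∀ u, (u, s) ∉ Q
      · exact Or.inl ⟨hs, h⟩
      · push Not at h
        obtain ⟨u, hu⟩ := h
        exact Or.inr ⟨(u, s), hu, rfl⟩
  rw [← h3, Finset.card_union_of_disjoint h2, h1]

theorem card_En {ι : Type*} [Fintype ι] [DecidableEq ι] {x y : ι → ℤ} {V : Finset ι}
    {Q : Finset (ι × ι)} (hQ : Sys x y Vᶜ Q) : (En V Q).card + Q.card = (Vᶜ : Finset ι).card := by
  classical
  have h1 : (Q.image Prod.fst).card = Q.card := by
    apply Finset.card_image_of_injOn
    rintro ⟨a, b⟩ ha ⟨c, d⟩ hc h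
    simp only at h
    subst h
    have := out_unique hQ ha hc
    rw [this]
  have h2 : Disjoint (En V Q) (Q.image Prod.fst) := by
    rw [Finset.disjoint_left]
    intro s hs hs'
    rw [mem_En] at hs
    obtain ⟨⟨a, b⟩, he, rfl⟩ := Finset.mem_image.1 hs'
    exact hs.2 b he
  have h3 : En V Q ∪ Q.image Prod.fst = (Vᶜ : Finset ι) := by
    ext s
    rw [Finset.mem_union, mem_En, Finset.mem_image, Finset.mem_compl]
    constructor
    · rintro (h | ⟨e, he, rfl⟩)
      · exact h.1
      · exact Finset.mem_compl.1 (hQ.memL e he)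
    · intro hs
      by_cases h : ∀ u, (s, u) ∉ Q
      · exact Or.inl ⟨hs, h⟩
      · push Not at h
        obtain ⟨u, hu⟩ := h
        exact Or.inr ⟨(s, u), hu, rfl⟩
  rw [← h3, Finset.card_union_of_disjoint h2, h1]

end Pool.Agent.helper11.WH
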