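import Mathlib
import Pool.Agent.helper11.WH.Defs
import Pool.Agent.helper76.WH.SW

set_option autoImplicit false

namespace Pool.Agent.helper11.WH

open Finset

theorem h76_lemmaB_aux {ι : Type*} [Fintype ι] [DecidableEq ι] {x y : ι → ℤ}
    (hx : Function.Injective x) {V : Finset ι} {Q : Finset (ι × ι)} (hQ : Sys x y Vᶜ Q)
    {u r w u' r' w' s : ι} (h1 : (u, r) ∈ Q) (h2 : (r, w) ∈ Q) (h1' : (u', r') ∈ Q)
    (h2' : (r', w') ∈ Q) (he : ∀ s, s ∉ V → ¬ InR x y u r w s)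
    (hs : InR x y u r w s) (hs' : InR x y u' r' w' s) (hne : r ≠ r') (hlow : y w' ≤ y r) :
    False := by
  obtain ⟨a1, a2, -⟩ := hQ.cov _ h1
  obtain ⟨b1, b2, -⟩ := hQ.cov _ h2
  obtain ⟨c1, c2, -⟩ := hQ.cov _ h1'
  obtain ⟨d1, d2, -⟩ := hQ.cov _ h2'
  simp only at a1 a2 b1 b2 c1 c2 d1 d2
  obtain ⟨s1, s2, s3, s4⟩ := hs
  obtain ⟨t1, t2, t3, t4⟩ := hs'
  have hr' : r' ∉ V := Finset.mem_compl.1 (hQ.memL _ h2')
  rcases lt_trichotomy (x r') (x r) with h | h | h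
  · have := top hQ h1 h2' h (by omega) (by omega)
    omega
  · exact hne (hx h.symm)
  · exact he r' hr' ⟨h, by omega, by omega, by omega⟩

theorem lemmaB {ι : Type*} [Fintype ι] [DecidableEq ι] {x y : ι → ℤ} (hx : Function.Injective x)
    (_hy : Function.Injective y) {V : Finset ι} {Q : Finset (ι × ι)} (hQ : Sys x y Vᶜ Q)
    (X : Finset ι)
    (hX : ∀ r ∈ X, ∃ u w, (u, r) ∈ Q ∧ (r, w) ∈ Q ∧ (∀ s, s ∉ V → ¬ InR x y u r w s) ∧
      ∃ s ∈ V, InR x y u r w s) :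
    X.card ≤ V.card := by
  classical
  choose! u w hu hw he s hsV hs using hX
  apply Finset.card_le_card_of_injOn s (fun r hr => hsV r hr)
  intro r hr r' hr' hss
  by_contra hne
  have h1 := hs r hr
  have h2 := hs r' hr'
  rw [← hss] at h2
  have hne' : (r, w r) ≠ (r', w r') := fun h => hne (Prod.mk.inj h).1
  have hal := alive hQ (hw r hr) (hw r' hr') hne' (lt_trans h1.1 h2.2.1) (lt_trans h2.1 h1.2.1)
  rcases hal with h | h
  · exact h76_lemmaB_aux hx hQ (hu r' hr') (hw r' hr') (hu r hr) (hw r hr) (he r' hr') h2 h1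
      (Ne.symm hne) h
  · exact h76_lemmaB_aux hx hQ (hu r hr) (hw r hr) (hu r' hr') (hw r' hr') (he r hr) h1 h2 hne h

end Pool.Agent.helper11.WH
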