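import Mathlib
import Pool.Agent.helper11.WH.Defs

set_option autoImplicit false

namespace Pool.Agent.helper11.WH

theorem h76_pow : (1000 / 1007 : ℝ) ^ 1000 ≤ 1 / 1060 := by
  have h : ((1000 : ℝ) / 1007) ^ 10 ≤ 93263 / 100000 := by norm_num
  have h2 : ((1000 : ℝ) / 1007) ^ 100 ≤ 4979 / 10000 := by
    calc ((1000 : ℝ) / 1007) ^ 100 = (((1000 : ℝ) / 1007) ^ 10) ^ 10 := by rw [← pow_mul]
      _ ≤ (93263 / 100000) ^ 10 := by gcongr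
      _ ≤ 4979 / 10000 := by norm_num
  calc ((1000 : ℝ) / 1007) ^ 1000 = (((1000 : ℝ) / 1007) ^ 100) ^ 10 := by rw [← pow_mul]
    _ ≤ (4979 / 10000) ^ 10 := by gcongr
    _ ≤ 1 / 1060 := by norm_num

theorem numer (n : ℕ) (hn : 1 ≤ n) :
    ((20 / 19 : ℝ) ^ 4 * (1 + (1000 / 1007 : ℝ) ^ 1000) ^ 2) ^ n * (1007 / 1000 : ℝ) ^ (3 * n) <
      ((20 / 19 : ℝ) * (1 + ((20 / 19 : ℝ) ^ 4 - 1) * (19 / 20) ^ 3)) ^ n := by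
  rw [pow_mul, ← mul_pow]
  apply pow_lt_pow_left₀ _ (by positivity) (by omega)
  have h0 : (0 : ℝ) ≤ (1000 / 1007 : ℝ) ^ 1000 := by positivity
  have h1 := h76_pow
  obtain ⟨z, hz⟩ : ∃ z : ℝ, z = (1000 / 1007 : ℝ) ^ 1000 := ⟨_, rfl⟩
  rw [← hz] at h0 h1 ⊢
  have h2 : (1 + z) ^ 2 ≤ (1 + 1 / 1060) ^ 2 := by gcongr
  calc (20 / 19 : ℝ) ^ 4 * (1 + z) ^ 2 * (1007 / 1000) ^ 3
      ≤ (20 / 19 : ℝ) ^ 4 * (1 + 1 / 1060) ^ 2 * (1007 / 1000) ^ 3 := by gcongr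
    _ < 20 / 19 * (1 + ((20 / 19 : ℝ) ^ 4 - 1) * (19 / 20) ^ 3) := by norm_num

end Pool.Agent.helper11.WH
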